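import Pool.Agent.Helper3_PPZ.Stmts

/-! PPZ, module PFD: partial fractions. -/

set_option autoImplicit false

namespace Pool.Agent.PPZ.H20

open Polynomial

universe u

section

variable {k : Type u} [Field k] {E : Type u} [Field E] [Algebra k E]

theorem aev_ne [IsAlgClosed k] {x : E} (hx : ∀ c : k, algebraMap k E c ≠ x) {V : k[X]}
    (hV : V ≠ 0) : aeval x V ≠ 0 := by
  classical
  have h1 : V = C V.leadingCoeff * (V.roots.map (X - C ·)).prod :=
    (IsAlgClosed.splits V).eq_prod_roots
  rw [h1, map_mul, aeval_C, map_multiset_prod, Multiset.map_map]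
  refine mul_ne_zero ?_ ?_
  · intro h
    rw [map_eq_zero] at h
    exact hV (leadingCoeff_eq_zero.1 h)
  · apply Multiset.prod_ne_zero
    intro h
    rw [Multiset.mem_map] at h
    obtain ⟨c, -, hc⟩ := h
    simp only [Function.comp_apply, map_sub, aeval_X, aeval_C] at hc
    exact hx c (sub_eq_zero.1 hc).symm

/-- chain rule -/
theorem D_aeval (D : Derivation ℤ E E) (hD : ∀ c : k, D (algebraMap k E c) = 0) (x : E)
    (p : k[X]) : D (aeval x p) = aeval x (derivative p) * D x := by
  induction p using Polynomial.induction_on' with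
  | add p q hp hq => rw [map_add, map_add, hp, hq, derivative_add, map_add, add_mul]
  | monomial n a =>
    rw [aeval_monomial, D.leibniz, hD, smul_zero, add_zero, D.leibniz_pow, smul_eq_mul,
      derivative_monomial, aeval_monomial, map_mul, map_natCast]
    rw [smul_eq_mul, nsmul_eq_mul]
    ring

theorem D_div (D : Derivation ℤ E E) {a b c d : E} (hb : b ≠ 0) (hd : d ≠ 0) :
    D (a / b) + D (c / d) = D ((a * d + c * b) / (b * d)) := by
  rw [← map_add]
  congr 1
  field_simp

/-- a primitive -/
theorem exists_prim [CharZero k] (A : k[X]) : ∃ U : k[X], derivative U = A := by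
  induction A using Polynomial.induction_on' with
  | add p q hp hq =>
    obtain ⟨U, hU⟩ := hp
    obtain ⟨V, hV⟩ := hq
    exact ⟨U + V, by rw [derivative_add, hU, hV]⟩
  | monomial n a =>
    refine ⟨monomial (n + 1) (a / (n + 1)), ?_⟩
    rw [derivative_monomial, Nat.add_sub_cancel]
    have : ((n : k) + 1) ≠ 0 := by exact_mod_cast Nat.succ_ne_zero n
    congr 1
    push_cast
    field_simp

end

theorem pfd_aux {k : Type u} [Field k] [IsAlgClosed k] [CharZero k] (s : Finset k) :
    ∀ (n : ℕ) (A B : k[X]), B ≠ 0 → B.natDegree = n → (∀ c, B.IsRoot c → c ∈ s) →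
    ∃ (r : k → k) (U V : k[X]), V ≠ 0 ∧ ∀ {E : Type u} [Field E] [Algebra k E]
      (D : Derivation ℤ E E), (∀ c : k, D (algebraMap k E c) = 0) → ∀ x : E,
      (∀ c : k, algebraMap k E c ≠ x) →
      aeval x A / aeval x B * D x =
        ∑ c ∈ s, algebraMap k E (r c) * (D x / (x - algebraMap k E c)) +
          D (aeval x U / aeval x V) := by
  classical
  intro n
  induction n using Nat.strong_induction_on with
  | _ n ih =>
    intro A B hB hn hs
    by_cases h0 : B.natDegree = 0
    · obtain ⟨U, hU⟩ := exists_prim A
      refine ⟨fun _ => 0, U, B, hB, ?_⟩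
      intro E _ _ D hD x hx
      have hb : B = C (B.coeff 0) := eq_C_of_natDegree_eq_zero h0
      have hb0 : B.coeff 0 ≠ 0 := by
        intro h
        rw [h, C_0] at hb
        exact hB hb
      have e1 : aeval x B = algebraMap k E (B.coeff 0) := by
        rw [hb, aeval_C, coeff_C_zero]
      have e2 : aeval x U / aeval x B = algebraMap k E ((B.coeff 0)⁻¹) * aeval x U := by
        rw [e1, map_inv₀, div_eq_inv_mul]
      rw [e2, D.leibniz, hD, smul_zero, add_zero, smul_eq_mul, D_aeval D hD, hU, e1, map_inv₀]
      simp only [map_zero, zero_mul, Finset.sum_const_zero, zero_add]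
      rw [div_eq_inv_mul, mul_assoc]
    · obtain ⟨c, hc⟩ := IsAlgClosed.exists_root B (by
        intro h
        exact h0 (natDegree_eq_of_degree_eq_some h))
      obtain ⟨B0, hB0, hnd⟩ := exists_eq_pow_rootMultiplicity_mul_and_not_dvd B hB c
      set m := rootMultiplicity c B with hm
      have hm1 : 0 < m := (rootMultiplicity_pos hB).2 hc
      have hB0ne : B0 ≠ 0 := by
        rintro rfl
        rw [mul_zero] at hB0
        exact hB hB0
      have hB0c : B0.eval c ≠ 0 := by
        intro h
        exact hnd (dvd_iff_isRoot.2 h)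
      obtain ⟨a, ha⟩ : ∃ a : k, a = A.eval c / B0.eval c := ⟨_, rfl⟩
      obtain ⟨A1, hA1⟩ : (X - C c) ∣ A - C a * B0 := by
        rw [dvd_iff_isRoot]
        show (A - C a * B0).eval c = 0
        rw [eval_sub, eval_mul, eval_C, ha, div_mul_cancel₀ _ hB0c, sub_self]
      obtain ⟨m', hm'⟩ : ∃ m', m = m' + 1 := ⟨m - 1, by omega⟩
      set B' : k[X] := (X - C c) ^ m' * B0 with hB'
      have hXc : (X - C c : k[X]) ≠ 0 := X_sub_C_ne_zero c
      have hB'ne : B' ≠ 0 := mul_ne_zero (pow_ne_zero _ hXc) hB0ne
      have hBB' : B = (X - C c) * B' := by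
        rw [hB0, hm', hB']
        ring
      have hdeg : B'.natDegree < n := by
        rw [← hn, hBB', natDegree_mul hXc hB'ne, natDegree_X_sub_C]
        omega
      obtain ⟨r, U, V, hV, hr⟩ := ih _ hdeg A1 B' hB'ne rfl (by
        intro c' hc'
        apply hs
        rw [hBB']
        show eval c' _ = 0
        rw [eval_mul, hc'.eq_zero, mul_zero])
      have hcs : c ∈ s := hs c hc
      -- the equation
      have main : ∀ {E : Type u} [Field E] [Algebra k E] (D : Derivation ℤ E E) (x : E),
          (∀ c : k, algebraMap k E c ≠ x) →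
          aeval x A / aeval x B * D x = aeval x A1 / aeval x B' * D x +
            algebraMap k E a * (D x / (x - algebraMap k E c) ^ m) := by
        intro E _ _ D x hx
        have hxc : x - algebraMap k E c ≠ 0 := fun h => hx c (sub_eq_zero.1 h).symm
        have hb0 : aeval x B0 ≠ 0 := aev_ne hx hB0ne
        have e1 : aeval x A = (x - algebraMap k E c) * aeval x A1 +
            algebraMap k E a * aeval x B0 := by
          have := congrArg (aeval x) hA1
          rw [map_sub, map_mul, map_mul, map_sub, aeval_C, aeval_X, aeval_C] at this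
          rw [← this]
          ring
        have e2 : aeval x B' = (x - algebraMap k E c) ^ m' * aeval x B0 := by
          rw [hB', map_mul, map_pow, map_sub, aeval_X, aeval_C]
        have e3 : aeval x B = (x - algebraMap k E c) ^ (m' + 1) * aeval x B0 := by
          rw [hBB', map_mul, e2, map_sub, aeval_X, aeval_C]
          ring
        rw [e1, e2, e3, hm']
        generalize x - algebraMap k E c = y at hxc ⊢
        generalize aeval x B0 = b at hb0 ⊢
        field_simp
        ring
      rcases Nat.eq_zero_or_pos m' with hm0 | hm0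
      · refine ⟨fun c' => r c' + if c' = c then a else 0, U, V, hV, ?_⟩
        intro E _ _ D hD x hx
        rw [main D x hx, hr D hD x hx, hm', hm0]
        have e1 : ∑ c' ∈ s, algebraMap k E (r c' + if c' = c then a else 0) *
            (D x / (x - algebraMap k E c')) =
            ∑ c' ∈ s, algebraMap k E (r c') * (D x / (x - algebraMap k E c')) +
              algebraMap k E a * (D x / (x - algebraMap k E c)) := by
          have e2 : ∀ c' ∈ s, algebraMap k E (r c' + if c' = c then a else 0) *
            (D x / (x - algebraMap k E c')) =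
            algebraMap k E (r c') * (D x / (x - algebraMap k E c')) +
              (if c' = c then algebraMap k E a * (D x / (x - algebraMap k E c)) else 0) := by
            intro c' _
            split_ifs with h
            · rw [h, map_add, add_mul]
            · rw [add_zero, add_zero]
          rw [Finset.sum_congr rfl e2, Finset.sum_add_distrib, Finset.sum_ite_eq' s c]
          rw [if_pos hcs]
        rw [e1, zero_add, pow_one]
        ring
      · refine ⟨r, U * (X - C c) ^ m' + C (-a / m') * V, V * (X - C c) ^ m',
          mul_ne_zero hV (pow_ne_zero _ hXc), ?_⟩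
        intro E _ _ D hD x hx
        have hxc : x - algebraMap k E c ≠ 0 := fun h => hx c (sub_eq_zero.1 h).symm
        have hxm : (x - algebraMap k E c) ^ m' ≠ 0 := pow_ne_zero _ hxc
        have hv : aeval x V ≠ 0 := aev_ne hx hV
        have hmk : (m' : k) ≠ 0 := by exact_mod_cast hm0.ne'
        rw [main D x hx, hr D hD x hx, add_assoc]
        congr 1
        have e1 : aeval x (U * (X - C c) ^ m' + C (-a / m') * V) /
            aeval x (V * (X - C c) ^ m') =
            (aeval x U * (x - algebraMap k E c) ^ m' + algebraMap k E (-a / m') * aeval x V) /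
              (aeval x V * (x - algebraMap k E c) ^ m') := by
          simp only [map_add, map_mul, map_pow, map_sub, aeval_X, aeval_C]
        rw [e1, ← D_div D hv hxm]
        congr 1
        -- derivative of the power
        have e2 : algebraMap k E (-a / m') / (x - algebraMap k E c) ^ m' =
            algebraMap k E (-a / m') * ((x - algebraMap k E c) ^ m')⁻¹ := div_eq_mul_inv _ _
        have e3 : D ((x - algebraMap k E c) ^ m')⁻¹ =
            -(((x - algebraMap k E c) ^ m')⁻¹ ^ 2 * D ((x - algebraMap k E c) ^ m')) := by
          rw [D.leibniz_inv, smul_eq_mul]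
          ring
        rw [e2, D.leibniz, hD, smul_zero, add_zero, smul_eq_mul, e3, D.leibniz_pow, map_sub, hD,
          sub_zero]
        obtain ⟨m'', hm''⟩ : ∃ m'', m' = m'' + 1 := ⟨m' - 1, by omega⟩
        have hmE : ((m' : ℕ) : E) ≠ 0 := by
          have := (map_ne_zero (algebraMap k E)).2 hmk
          rwa [map_natCast] at this
        rw [map_div₀, map_neg, map_natCast, hm', smul_eq_mul, nsmul_eq_mul]
        rw [hm''] at hmE ⊢
        rw [Nat.add_sub_cancel]
        generalize x - algebraMap k E c = y at hxc ⊢
        generalize hM : ((m'' + 1 : ℕ) : E) = M at hmE ⊢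
        field_simp
        ring

theorem pfd : PfdStmt.{u} := by
  intro k _ _ _ A B hB s hs
  obtain ⟨r, U, V, -, h⟩ := pfd_aux s _ A B hB rfl (fun c hc => (hs c).2 hc)
  exact ⟨r, U, V, h⟩

end Pool.Agent.PPZ.H20
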